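import Mathlib

set_option autoImplicit false

namespace Pool.Agent.Results.MP_6ad575_co.Counter

open Finset

section
variable {S : Type} [AddCommMonoid S]

/-- The cyclic subsemigroup generated by `x`. -/
def cyc (x : S) : Set S := {y | ∃ m : ℕ, 1 ≤ m ∧ y = m • x}

/-- `e` is the idempotent of the cyclic subsemigroup of `x`. -/
def IsE (x e : S) : Prop := e ∈ cyc x ∧ e + e = e

/-- The cyclic subsemigroup of `a` is a group. -/
def CycGroup (a : S) : Prop :=
  ∃ e ∈ cyc a, ∀ y ∈ cyc a, e + y = y ∧ ∃ z ∈ cyc a, y + z = e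

/-- Green's relation `H`. -/
def Hrel (a b : S) : Prop := (a = b ∨ ∃ c, a = b + c) ∧ (b = a ∨ ∃ c, b = a + c)

/-- The image of the sequence `t` in `S / H` is irreducible. -/
def IrredH {l : ℕ} (t : Fin l → S) : Prop :=
  ∀ I : Finset (Fin l), I ≠ univ → ¬ Hrel (∑ i ∈ I, t i) (∑ i, t i)

end

/-- `d(S,R) ≤ L`. -/
def DLe (S : Type) [AddCommMonoid S] (R : Type) [CommRing R] (L : ℕ) : Prop :=
  ∀ (l : ℕ) (s e : Fin l → S), (∀ i, IsE (s i) (e i)) →
    (∀ a : Fin l → R, (∀ i, a i ≠ 0) →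
      ∏ i, (AddMonoidAlgebra.single (s i) (1 : R) - AddMonoidAlgebra.single (e i) (a i)) ≠ 0) →
    l ≤ L

@[ext] structure T where
  A : Finset ℕ
  t : Fin 3

def tadd (s t : Fin 3) : Fin 3 := ⟨min (s.1 + t.1) 2, by omega⟩

instance : Add T := ⟨fun x y => ⟨x.A ∪ y.A, tadd x.t y.t⟩⟩
instance : Zero T := ⟨⟨∅, 0⟩⟩

lemma add_A (x y : T) : (x + y).A = x.A ∪ y.A := rfl
lemma add_t (x y : T) : (x + y).t = tadd x.t y.t := rfl

instance : AddCommMonoid T where
  add_assoc x y z := T.ext (union_assoc _ _ _)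
    ((by decide : ∀ a b c, tadd (tadd a b) c = tadd a (tadd b c)) _ _ _)
  zero_add x := T.ext (empty_union _) ((by decide : ∀ a, tadd 0 a = a) _)
  add_zero x := T.ext (union_empty _) ((by decide : ∀ a, tadd a 0 = a) _)
  add_comm x y := T.ext (union_comm _ _) ((by decide : ∀ a b, tadd a b = tadd b a) _ _)
  nsmul := nsmulRec

lemma three (x : T) : x + x + x = x + x :=
  T.ext (by simp [add_A]) ((by decide : ∀ a, tadd (tadd a a) a = tadd a a) _)

lemma cyc_mem (x y : T) (h : y ∈ cyc x) : y = x ∨ y = x + x := by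
  obtain ⟨m, hm, rfl⟩ := h
  induction m, hm using Nat.le_induction with
  | base => left; exact one_nsmul x
  | succ m _ ih =>
    right
    rw [succ_nsmul]
    rcases ih with h | h <;> rw [h]
    exact three x

lemma isE (x e : T) (h : IsE x e) : e = x + x := by
  rcases cyc_mem x e h.1 with h1 | h1
  · rw [← h.2, h1]
  · exact h1

lemma four (s t : T) : (s + t = s + (t + t) ∧ s + s + t = s + s + (t + t)) ∨
    (s + t = s + s + t ∧ s + (t + t) = s + s + (t + t)) := by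
  have h : ∀ a b : Fin 3, (tadd a b = tadd a (tadd b b) ∧
      tadd (tadd a a) b = tadd (tadd a a) (tadd b b)) ∨
      (tadd a b = tadd (tadd a a) b ∧ tadd a (tadd b b) = tadd (tadd a a) (tadd b b)) := by decide
  rcases h s.t t.t with ⟨h1, h2⟩ | ⟨h1, h2⟩
  · exact Or.inl ⟨T.ext (by simp [add_A]) h1, T.ext (by simp [add_A]) h2⟩
  · exact Or.inr ⟨T.ext (by simp [add_A]) h1, T.ext (by simp [add_A]) h2⟩

lemma mem_sum {l : ℕ} (t : Fin l → T) (I : Finset (Fin l)) (j : ℕ) :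
    j ∈ (∑ i ∈ I, t i).A ↔ ∃ i ∈ I, j ∈ (t i).A := by
  induction I using Finset.induction_on with
  | empty =>
    rw [sum_empty]
    exact ⟨fun h => absurd h (notMem_empty j), fun ⟨_, h, _⟩ => absurd h (notMem_empty _)⟩
  | insert a I ha ih => rw [sum_insert ha, add_A, mem_union, ih]; simp

def seq (N : ℕ) (i : Fin (N + 1)) : T := ⟨{i.1}, if i = 0 then 1 else 0⟩

lemma seq_t (N : ℕ) : (∑ i, seq N i).t = 1 := by
  rw [Fin.sum_univ_succ, add_t]
  have : (∑ i : Fin N, seq N i.succ).t = 0 := by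
    refine sum_induction _ (fun x : T => x.t = 0) ?_ rfl ?_
    · intro a b ha hb
      rw [add_t, ha, hb]; rfl
    · intro i _
      simp [seq]
  rw [this]
  rfl

theorem result : ∃ (S : Type) (_ : AddCommMonoid S), (∀ x : S, (cyc x).Finite) ∧
    (∀ (R : Type) [CommRing R] [Nontrivial R], DLe S R 1) ∧
    ∀ N : ℕ, ∃ a : S, ¬ CycGroup a ∧
      ∃ (l : ℕ) (t : Fin l → S), N < l ∧ Hrel (∑ i, t i) a ∧ IrredH t := by
  refine ⟨T, inferInstance, fun x => ?_, fun R _ _ l s e he h => ?_, fun N => ?_⟩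
  · exact (Set.toFinite {x, x + x}).subset fun y hy => cyc_mem x y hy
  · by_contra hl
    obtain ⟨n, rfl⟩ : ∃ n, l = n + 2 := ⟨l - 2, by omega⟩
    refine h (fun _ => 1) (fun _ => one_ne_zero) ?_
    rw [Fin.prod_univ_succ, Fin.prod_univ_succ, ← mul_assoc, isE _ _ (he 0), isE _ _ (he (Fin.succ 0))]
    refine mul_eq_zero_of_left ?_ _
    simp only [sub_mul, mul_sub, AddMonoidAlgebra.single_mul_single, mul_one]
    rcases four (s 0) (s (Fin.succ 0)) with ⟨h1, h2⟩ | ⟨h1, h2⟩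
    · rw [← h1, ← h2]; ring
    · rw [← h1, ← h2]; ring
  · refine ⟨∑ i, seq N i, ?_, N + 1, seq N, by omega, ⟨Or.inl rfl, Or.inl rfl⟩, ?_⟩
    · rintro ⟨e, he, h⟩
      have h1 := congrArg T.t (h _ ⟨1, le_rfl, (one_nsmul _).symm⟩).1
      rcases cyc_mem _ _ he with h2 | h2 <;> rw [h2] at h1 <;> simp only [add_t, seq_t] at h1 <;>
        exact absurd h1 (by decide)
    · intro I hI hH
      obtain ⟨j, hj⟩ : ∃ j, j ∉ I := by
        by_contra hc
        push Not at hc
        exact hI (eq_univ_of_forall hc)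
      have h1 : j.1 ∈ (∑ i, seq N i).A := (mem_sum _ _ _).2 ⟨j, mem_univ _, mem_singleton_self _⟩
      have h2 : j.1 ∈ (∑ i ∈ I, seq N i).A := by
        rcases hH.1 with h | ⟨c, h⟩ <;> rw [h]
        · exact h1
        · exact mem_union_left _ h1
      obtain ⟨i, hi, h3⟩ := (mem_sum _ _ _).1 h2
      exact hj ((Fin.ext (mem_singleton.1 h3) : j = i) ▸ hi)

end Pool.Agent.Results.MP_6ad575_co.Counter
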